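import Pool.Agent.Q106.PK.Stm

set_option autoImplicit false

namespace Pool.Agent.Q106.PK

theorem boxa_iff (P : Finset (ℤ × ℤ)) (v : ℤ × ℤ) : BoxA (tr v P) ↔
    (∀ p ∈ P, 0 ≤ p.1 + v.1 ∧ 0 ≤ p.2 + v.2) ∧ (∃ p ∈ P, p.1 + v.1 = 0) ∧ (∃ p ∈ P, p.2 + v.2 = 0) := by
  have hmem : ∀ p ∈ P, p + v ∈ tr v P := fun p hp => mem_tr.2 (by simpa using hp)
  constructor
  · rintro ⟨h1, ⟨p, hp, hp1⟩, q, hq, hq1⟩
    refine ⟨fun p hp => h1 (p + v) (hmem p hp), ⟨p - v, mem_tr.1 hp, ?_⟩, q - v, mem_tr.1 hq, ?_⟩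
    · simpa using hp1
    · simpa using hq1
  · rintro ⟨h1, ⟨p, hp, hp1⟩, q, hq, hq1⟩
    refine ⟨fun r hr => ?_, ⟨p + v, hmem p hp, hp1⟩, q + v, hmem q hq, hq1⟩
    have := h1 (r - v) (mem_tr.1 hr)
    simpa using this

/-- JOB BOXA -/
theorem t_BOXA : S_BOXA := by
  intro P hP
  obtain ⟨p, hp, hp1⟩ := Finset.exists_min_image P Prod.fst hP
  obtain ⟨q, hq, hq1⟩ := Finset.exists_min_image P Prod.snd hP
  refine ⟨(-p.1, -q.2), ?_, ?_⟩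
  · show BoxA (tr (-p.1, -q.2) P)
    rw [boxa_iff]
    refine ⟨fun r hr => ⟨?_, ?_⟩, ⟨p, hp, by simp⟩, q, hq, by simp⟩
    · have := hp1 r hr
      show 0 ≤ r.1 + -p.1
      omega
    · have := hq1 r hr
      show 0 ≤ r.2 + -q.2
      omega
  · rintro v hv
    replace hv : BoxA (tr v P) := hv
    rw [boxa_iff] at hv
    obtain ⟨h1, ⟨a, ha, ha1⟩, b, hb, hb1⟩ := hv
    have e1 := hp1 a ha
    have e2 := hq1 b hb
    have e3 := (h1 p hp).1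
    have e4 := (h1 q hq).2
    refine Prod.ext ?_ ?_
    · show v.1 = -p.1
      omega
    · show v.2 = -q.2
      omega

end Pool.Agent.Q106.PK
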