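import Pool.Agent.Q106.PK.Stm

set_option autoImplicit false

namespace Pool.Agent.Q106.PK

/-- JOB UNI -/
theorem t_UNI : S_UNI := by
  intro X Y x y hX hY hx hy hxy
  have mX : ∀ p ∈ X, ∀ q ∈ X, Relation.ReflTransGen (fun a b => a ∈ X ∪ Y ∧ b ∈ X ∪ Y ∧ CAdj a b) p q := by
    intro p hp q hq
    refine (hX.2 p hp q hq).lift id fun a b h => ?_
    obtain ⟨ha, hb, hab⟩ := h
    exact ⟨Finset.mem_union_left _ ha, Finset.mem_union_left _ hb, hab⟩
  have mY : ∀ p ∈ Y, ∀ q ∈ Y, Relation.ReflTransGen (fun a b => a ∈ X ∪ Y ∧ b ∈ X ∪ Y ∧ CAdj a b) p q := by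
    intro p hp q hq
    refine (hY.2 p hp q hq).lift id fun a b h => ?_
    obtain ⟨ha, hb, hab⟩ := h
    exact ⟨Finset.mem_union_right _ ha, Finset.mem_union_right _ hb, hab⟩
  have hx' : x ∈ X ∪ Y := Finset.mem_union_left _ hx
  have hy' : y ∈ X ∪ Y := Finset.mem_union_right _ hy
  have s1 : Relation.ReflTransGen (fun a b => a ∈ X ∪ Y ∧ b ∈ X ∪ Y ∧ CAdj a b) x y :=
    Relation.ReflTransGen.single ⟨hx', hy', hxy⟩
  have s2 : Relation.ReflTransGen (fun a b => a ∈ X ∪ Y ∧ b ∈ X ∪ Y ∧ CAdj a b) y x :=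
    Relation.ReflTransGen.single ⟨hy', hx', cadj_symm hxy⟩
  refine ⟨⟨x, hx'⟩, fun p hp q hq => ?_⟩
  rcases Finset.mem_union.1 hp with hp | hp <;> rcases Finset.mem_union.1 hq with hq | hq
  · exact mX p hp q hq
  · exact ((mX p hp x hx).trans s1).trans (mY y hy q hq)
  · exact ((mY p hp y hy).trans s2).trans (mX x hx q hq)
  · exact mY p hp q hq

end Pool.Agent.Q106.PK
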