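import Mathlib
import Pool.Agent.Q256.UG.Stm

set_option autoImplicit false

namespace Pool.Agent.Q211.UG

open Finset MvPolynomial
open Pool.Agent.Q256.UP (PBox card_pbox finite_pbox)
open Pool.Agent.Q256.UI (ev tc Q kap rho)
open Pool.Agent.Q256.UG

theorem cls_nc (d : ℕ) : d + 1 ≤ NC d := by
  unfold NC
  have h2 : (d + 2).choose 2 = (d + 1).choose 1 + (d + 1).choose 2 :=
    Nat.choose_succ_succ (d + 1) 1
  rw [h2, Nat.choose_one_right]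
  omega

theorem cls_finite (d H : ℕ) : (Vc d H).Finite :=
  (Set.Finite.pi' (fun _ => Set.finite_Icc (-(H : ℤ)) H)).subset (fun _ hc i => abs_le.1 (hc i))

theorem cls : S_CL1 → S_CL4 → S_LDF → S_CLS := by
  intro h1 h4 hl d hd
  obtain ⟨C1, hC1, h1⟩ := h1 d hd
  obtain ⟨C4, hC4, h4⟩ := h4 d hd
  have h3 : (1 : ℝ) ≤ 3 ^ (NC d - (d + 1)) := one_le_pow₀ (by norm_num)
  refine ⟨(C1 + C4) * 3 ^ (NC d - (d + 1)), by nlinarith, ?_⟩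
  intro H hH
  have hHr : (1 : ℝ) ≤ H := by exact_mod_cast hH
  have hHpos : (0 : ℝ) < H := by linarith
  set S1 : Set (Fin (d + 1) → ℤ) := {c | c ∈ Vc d H ∧ ∃ z : ℝ, |z| ≤ 2 ∧ |pv d c 0 z| ≤ 1 ∧
    |pv d c 1 z| ≤ 1 ∧ |pv d c 2 z| ≤ (H : ℝ) ^ ((2 : ℝ) / 3)} with hS1
  set S4 : Set (Fin (d + 1) → ℤ) := {c | c ∈ Vc d H ∧ ∃ z : ℝ, |z| ≤ 2 ∧
    |pv d c 0 z| * (H : ℝ) ^ 2 ≤ 1 ∧ |pv d c 1 z| ≤ 1 / 8 ∧
    (H : ℝ) ^ ((2 : ℝ) / 3) ≤ |pv d c 2 z|} with hS4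
  set P : Set (Fin (d + 1) → ℤ) := {c | ∃ z : ℝ, |z| ≤ 2 ∧ |pv d c 0 z| * (H : ℝ) ^ 2 ≤ 1 ∧
    |pv d c 1 z| ≤ 1 / 8} with hP
  have hset : {F | F ∈ PBox d H ∧ Flat d H F} = {F | F ∈ PBox d H ∧ lc d F ∈ P} := by
    ext F
    simp only [Set.mem_setOf_eq, hP, Flat, hl.1]
  have hc := hl.2.2 d H P (by omega)
  rw [← hset] at hc
  have hsub : {c | c ∈ Vc d H ∧ c ∈ P} ⊆ S1 ∪ S4 := by
    rintro c ⟨hc1, z, hz, hz0, hz1⟩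
    rcases le_total (|pv d c 2 z|) ((H : ℝ) ^ ((2 : ℝ) / 3)) with h | h
    · left
      refine ⟨hc1, z, hz, ?_, by linarith, h⟩
      have e1 : (1 : ℝ) ≤ (H : ℝ) ^ 2 := one_le_pow₀ hHr
      have e2 : |pv d c 0 z| * 1 ≤ |pv d c 0 z| * (H : ℝ) ^ 2 :=
        mul_le_mul_of_nonneg_left e1 (abs_nonneg _)
      linarith
    · right
      exact ⟨hc1, z, hz, hz0, hz1, h⟩
  have hf1 : S1.Finite := (cls_finite d H).subset (fun c hc => hc.1)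
  have hf4 : S4.Finite := (cls_finite d H).subset (fun c hc => hc.1)
  have hcard : (Nat.card {c | c ∈ Vc d H ∧ c ∈ P} : ℝ) ≤
      (C1 + C4) * (H : ℝ) ^ ((d : ℝ) - 1 / 3) := by
    rw [Nat.card_coe_set_eq]
    have e1 : {c | c ∈ Vc d H ∧ c ∈ P}.ncard ≤ S1.ncard + S4.ncard :=
      (Set.ncard_le_ncard hsub (hf1.union hf4)).trans (Set.ncard_union_le _ _)
    have e2 : (({c | c ∈ Vc d H ∧ c ∈ P}.ncard : ℕ) : ℝ) ≤ (S1.ncard : ℝ) + S4.ncard := by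
      exact_mod_cast e1
    have e3 := h1 H hH
    have e4 := h4 H hH
    rw [Nat.card_coe_set_eq] at e3 e4
    have e5 : (H : ℝ) ^ ((d : ℝ) - 2 / 3) ≤ (H : ℝ) ^ ((d : ℝ) - 1 / 3) :=
      Real.rpow_le_rpow_of_exponent_le hHr (by linarith)
    have e6 : C1 * (H : ℝ) ^ ((d : ℝ) - 2 / 3) ≤ C1 * (H : ℝ) ^ ((d : ℝ) - 1 / 3) :=
      mul_le_mul_of_nonneg_left e5 (by linarith)
    rw [add_mul]
    linarith
  have hc' : (Nat.card {F | F ∈ PBox d H ∧ Flat d H F} : ℝ) ≤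
      (Nat.card {c | c ∈ Vc d H ∧ c ∈ P} : ℝ) * (2 * H + 1) ^ (NC d - (d + 1)) := by
    exact_mod_cast hc
  refine hc'.trans ?_
  have e1 : (2 * (H : ℝ) + 1) ^ (NC d - (d + 1)) ≤ (3 * H) ^ (NC d - (d + 1)) :=
    pow_le_pow_left₀ (by positivity) (by linarith) _
  have e2 : (3 * (H : ℝ)) ^ (NC d - (d + 1)) = 3 ^ (NC d - (d + 1)) *
      (H : ℝ) ^ ((NC d : ℝ) - (d + 1)) := by
    rw [mul_pow]
    congr 1
    rw [← Real.rpow_natCast, Nat.cast_sub (cls_nc d)]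
    push_cast
    rfl
  have e3 : (H : ℝ) ^ ((NC d : ℝ) - 4 / 3) = (H : ℝ) ^ ((d : ℝ) - 1 / 3) *
      (H : ℝ) ^ ((NC d : ℝ) - (d + 1)) := by
    rw [← Real.rpow_add hHpos]
    congr 1
    ring
  calc (Nat.card {c | c ∈ Vc d H ∧ c ∈ P} : ℝ) * (2 * H + 1) ^ (NC d - (d + 1))
      ≤ ((C1 + C4) * (H : ℝ) ^ ((d : ℝ) - 1 / 3)) * (3 * H) ^ (NC d - (d + 1)) :=
        mul_le_mul hcard e1 (by positivity) (by positivity)
    _ = (C1 + C4) * 3 ^ (NC d - (d + 1)) * (H : ℝ) ^ ((NC d : ℝ) - 4 / 3) := by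
        rw [e2, e3]; ring

end Pool.Agent.Q211.UG
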