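import Mathlib
import Pool.Agent.Q256.UG.Stm

set_option autoImplicit false

namespace Pool.Agent.Q211.UG

open Finset MvPolynomial
open Pool.Agent.Q256.UP (PBox)
open Pool.Agent.Q256.UI (ev tc Q kap rho)
open Pool.Agent.Q256.UG

/-- A set without three different elements has at most two elements. -/
theorem cng_two {α : Type} (S : Set α)
    (h : ∀ p ∈ S, ∀ q ∈ S, ∀ r ∈ S, p ≠ q → q ≠ r → r ≠ p → False) :
    S.Finite ∧ S.ncard ≤ 2 := by
  by_cases hn : S.Nontrivial
  · obtain ⟨p, hp, q, hq, hpq⟩ := hn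
    have hsub : S ⊆ {p, q} := by
      intro r hr
      by_contra hc
      rw [Set.mem_insert_iff, Set.mem_singleton_iff, not_or] at hc
      exact h p hp q hq r hr hpq (fun e => hc.2 e.symm) hc.1
    have hfin : ({p, q} : Set α).Finite := Set.toFinite _
    exact ⟨hfin.subset hsub, (Set.ncard_le_ncard hsub hfin).trans (Set.ncard_pair hpq).le⟩
  · rw [Set.not_nontrivial_iff] at hn
    refine ⟨hn.finite, ?_⟩
    have hfin := hn.finite
    have h1 : S.ncard ≤ 1 ↔ S.Subsingleton := by
      have : Finite S := hfin.to_subtype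
      exact Set.ncard_le_one_iff_subsingleton
    have h2 := h1.2 hn
    omega

theorem cng : S_TWG → Pool.Agent.Q256.UI.S_WND → S_CNG := by
  intro hT hW d c A hd hA
  obtain ⟨c0, H0, hc0, hH0, h⟩ := hT d c A hd hA
  have hApos : 0 < A := by linarith
  set c1 := min c0 (1 / A) with hc1
  have hc1pos : 0 < c1 := lt_min hc0 (by positivity)
  refine ⟨max 1 (64 / c1), H0, le_max_left _ _, hH0, ?_⟩
  intro H T W θ F hH hTpos hHT hG hRS hRD hW0 hWle hrho
  have hHr : (1 : ℝ) ≤ H := hH0.trans hH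
  have hHpos : (0 : ℝ) < H := by linarith
  set D := |tc F θ d 1| with hD
  have hD16 : 1 / 16 ≤ D := hG.th.one
  have hDpos : 0 < D := lt_of_lt_of_le (by norm_num) hD16
  have hDA : D ≤ A * H := by
    have := hG.k1
    rw [← hD, le_div_iff₀ hDpos, one_mul] at this
    exact this
  have hc1D : c1 * D ≤ H := by
    have e1 : c1 * D ≤ (1 / A) * (A * H) :=
      mul_le_mul (min_le_right _ _) hDA hDpos.le (by positivity)
    have e2 : (1 / A) * (A * H) = H := by field_simp
    rwa [e2] at e1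
  set L := c1 * T * D / H with hL
  have hLpos : 0 < L := by positivity
  have hLT : L ≤ T := by
    rw [hL, div_le_iff₀ hHpos]
    calc c1 * T * D = T * (c1 * D) := by ring
      _ ≤ T * H := mul_le_mul_of_nonneg_left hc1D hTpos.le
  have hLH : L * H ≤ c0 * T * D := by
    rw [hL, div_mul_cancel₀ _ hHpos.ne']
    have : c1 ≤ c0 := min_le_left _ _
    have h2 : 0 ≤ T * D := by positivity
    calc c1 * T * D = c1 * (T * D) := by ring
      _ ≤ c0 * (T * D) := mul_le_mul_of_nonneg_right this h2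
      _ = c0 * T * D := by ring
  have key := h H T W L θ F hH hTpos hHT hG hRS hRD hW0 hWle hrho hLpos.le hLH
  have hw := hW (Ap d F θ A H T W) T L 2 hLpos hLT (by norm_num)
    (fun p hp => ⟨hp.1, hp.2.1⟩) (by
      intro X
      have h2 := cng_two {p : ℤ × ℤ | p ∈ Ap d F θ A H T W ∧ X ≤ p.1 ∧ (p.1 : ℝ) ≤ X + L} (by
        rintro p ⟨hp, hp1, hp2⟩ q ⟨hq, hq1, hq2⟩ r ⟨hr, hr1, hr2⟩ n1 n2 n3
        refine key p hp q hq r hr ?_ ?_ ?_ n1 n2 n3
        · rw [abs_le]; constructor <;> linarith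
        · rw [abs_le]; constructor <;> linarith
        · rw [abs_le]; constructor <;> linarith)
      exact ⟨h2.1, by exact_mod_cast h2.2⟩)
  refine ⟨hw.1, hw.2.trans ?_⟩
  have e1 : T / L = H / (c1 * D) := by
    rw [hL]; field_simp
  rw [e1]
  have e2 : (H : ℝ) / (c1 * D) ≤ 16 / c1 * H := by
    rw [div_le_iff₀ (by positivity)]
    have : 16 / c1 * H * (c1 * D) = 16 * D * H := by field_simp
    rw [this]
    nlinarith
  calc 2 * 2 * ((H : ℝ) / (c1 * D)) ≤ 2 * 2 * (16 / c1 * H) := by linarith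
    _ = 64 / c1 * H := by ring
    _ ≤ max 1 (64 / c1) * H := mul_le_mul_of_nonneg_right (le_max_right _ _) hHpos.le

end Pool.Agent.Q211.UG
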