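import Mathlib
import Pool.Agent.Q256.UG.Stm

set_option autoImplicit false

namespace Pool.Agent.Q211.UG

open Finset MvPolynomial
open Pool.Agent.Q256.UP (PBox card_pbox finite_pbox)
open Pool.Agent.Q256.UI (ev tc Q kap rho)
open Pool.Agent.Q256.UG

theorem finite_vc (d H : ℕ) : (Vc d H).Finite := by
  have h : Vc d H ⊆ Set.pi Set.univ (fun _ : Fin (d + 1) => Set.Icc (-(H : ℤ)) H) := by
    intro c hc i _
    exact abs_le.1 (hc i)
  exact (Set.Finite.pi' (fun _ => Set.finite_Icc _ _)).subset (fun c hc i => abs_le.1 (hc i))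

theorem nc_sub (d : ℕ) (hd : 1 ≤ d) : NC d - (d + 1) = (d - 1 + 2).choose 2 := by
  obtain ⟨e, rfl⟩ : ∃ e, d = e + 1 := ⟨d - 1, by omega⟩
  unfold NC
  have h2 : (e + 1 + 2).choose 2 = (e + 2).choose 1 + (e + 2).choose 2 :=
    Nat.choose_succ_succ (e + 2) 1
  rw [h2, Nat.choose_one_right, Nat.add_sub_cancel_left, Nat.add_sub_cancel]

theorem ldf_low {d H : ℕ} (hd : 1 ≤ d) {F : MvPolynomial (Fin 2) ℤ} (hF : F ∈ PBox d H) :
    F - homogeneousComponent d F ∈ PBox (d - 1) H := by
  classical
  constructor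
  · unfold totalDegree
    apply Finset.sup_le
    intro α hα
    rw [mem_support_iff, coeff_sub, coeff_homogeneousComponent] at hα
    have h4 : (α.sum fun _ e => e) = α.degree := rfl
    rw [h4]
    by_cases h : α.degree = d
    · rw [if_pos h, sub_self] at hα
      exact absurd rfl hα
    · rw [if_neg h, sub_zero] at hα
      have h3 := le_totalDegree (mem_support_iff.2 hα)
      have h5 := hF.1
      omega
  · intro α
    rw [coeff_sub, coeff_homogeneousComponent]
    split_ifs
    · rw [sub_self, abs_zero]; positivity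
    · rw [sub_zero]; exact hF.2 α

theorem ldf_inj {d : ℕ} {F G : MvPolynomial (Fin 2) ℤ} (h1 : lc d F = lc d G)
    (h2 : F - homogeneousComponent d F = G - homogeneousComponent d G) : F = G := by
  classical
  ext α
  by_cases h : α.degree = d
  · have h3 : α 0 + α 1 = d := by
      rw [← h, Finsupp.degree_eq_sum, Fin.sum_univ_two]
    have h4 := congrFun h1 ⟨α 1, by omega⟩
    unfold lc at h4
    simp only at h4
    have h5 : Finsupp.single 0 (d - α 1) + Finsupp.single 1 (α 1) = α := by
      ext i
      fin_cases i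
      · simp; omega
      · simp
    rwa [h5] at h4
  · have h3 := congrArg (coeff α) h2
    rw [coeff_sub, coeff_sub, coeff_homogeneousComponent, coeff_homogeneousComponent, if_neg h,
      if_neg h, sub_zero, sub_zero] at h3
    exact h3

theorem ldf : S_LDF := by
  refine ⟨?_, ?_, ?_⟩
  · intro d F z j
    unfold tc pv lc
    rw [Finset.sum_range]
  · intro d F b a
    unfold ld lc
    rw [Finset.sum_range]
  · intro d H P hd
    have hv : Finite {c | c ∈ Vc d H ∧ c ∈ P} :=
      ((finite_vc d H).subset (fun c hc => hc.1)).to_subtype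
    have hb : Finite (PBox (d - 1) H) := (finite_pbox _ _).to_subtype
    rw [nc_sub d hd, ← card_pbox, ← Nat.card_prod]
    refine Nat.card_le_card_of_injective
      (fun F : {F | F ∈ PBox d H ∧ lc d F ∈ P} =>
        ((⟨lc d F.1, ⟨fun i => F.2.1.2 _, F.2.2⟩⟩, ⟨_, ldf_low hd F.2.1⟩) :
          {c | c ∈ Vc d H ∧ c ∈ P} × PBox (d - 1) H)) ?_
    intro F G h
    have h1 := congrArg (fun x => x.1.1) h
    have h2 := congrArg (fun x => x.2.1) h
    exact Subtype.ext (ldf_inj h1 h2)

end Pool.Agent.Q211.UG
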