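import Mathlib
import Pool.Agent.Q256.UG.Stm

set_option autoImplicit false

namespace Pool.Agent.Q211.UG

open Finset MvPolynomial
open Pool.Agent.Q256.UP (PBox)
open Pool.Agent.Q256.UI (ev tc Q kap rho)
open Pool.Agent.Q256.UG

theorem tcb_bound {d B : ℕ} {F : MvPolynomial (Fin 2) ℤ} {θ : ℝ} (hF : F ∈ PBox d B)
    (hθ : |θ| ≤ 2) {k j : ℕ} (hk : k ≤ d) :
    |tc F θ k j| ≤ (d + 1) * B * 4 ^ d := by
  unfold tc
  refine (abs_sum_le_sum_abs _ _).trans ?_
  have h1 : ∀ i ∈ range (k + 1),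
      |((F.coeff (Finsupp.single 0 (k - i) + Finsupp.single 1 i) : ℤ) : ℝ) * (i.choose j : ℝ) *
        θ ^ (i - j)| ≤ (B : ℝ) * 4 ^ d := by
    intro i hi
    rw [mem_range] at hi
    rw [abs_mul, abs_mul, abs_pow]
    have e1 : |((F.coeff (Finsupp.single 0 (k - i) + Finsupp.single 1 i) : ℤ) : ℝ)| ≤ B := by
      have := hF.2 (Finsupp.single 0 (k - i) + Finsupp.single 1 i)
      exact_mod_cast this
    have e2 : |((i.choose j : ℕ) : ℝ)| ≤ 2 ^ d := by
      rw [Nat.abs_cast]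
      have a1 : i.choose j ≤ 2 ^ i := Nat.choose_le_two_pow i j
      have a2 : 2 ^ i ≤ 2 ^ d := Nat.pow_le_pow_right (by norm_num) (by omega)
      exact_mod_cast a1.trans a2
    have e3 : |θ| ^ (i - j) ≤ 2 ^ d := by
      have a1 : |θ| ^ (i - j) ≤ (2 : ℝ) ^ (i - j) := pow_le_pow_left₀ (abs_nonneg _) hθ _
      have a2 : (2 : ℝ) ^ (i - j) ≤ 2 ^ d := pow_le_pow_right₀ (by norm_num) (by omega)
      exact a1.trans a2
    have e4 : (4 : ℝ) ^ d = 2 ^ d * 2 ^ d := by
      rw [← mul_pow]; norm_num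
    rw [e4, ← mul_assoc]
    exact mul_le_mul (mul_le_mul e1 e2 (abs_nonneg _) (by positivity)) e3 (by positivity)
      (by positivity)
  refine (sum_le_sum h1).trans ?_
  rw [sum_const, card_range, nsmul_eq_mul, mul_assoc]
  refine mul_le_mul_of_nonneg_right ?_ (by positivity)
  have : ((k + 1 : ℕ) : ℝ) ≤ ((d + 1 : ℕ) : ℝ) := by exact_mod_cast (by omega : k + 1 ≤ d + 1)
  push_cast at this ⊢
  exact this

theorem tcb : S_TCB := by
  intro d c hd
  have hA0 : (0 : ℝ) ≤ (d + 1) * c * 4 ^ d := by positivity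
  refine ⟨(d + 1) * c * 4 ^ d + 1, by linarith, ?_⟩
  intro A' hA' H F θ hH hF hT
  have hHr : (1 : ℝ) ≤ H := by exact_mod_cast hH
  have hb : ∀ k j, k ≤ d → |tc F θ k j| ≤ A' * H := by
    intro k j hk
    have h1 := tcb_bound hF hT.abs (k := k) (j := j) hk
    push_cast at h1
    have h2 : ((d : ℝ) + 1) * (c * H) * 4 ^ d = ((d + 1) * c * 4 ^ d) * H := by ring
    rw [h2] at h1
    exact h1.trans (mul_le_mul_of_nonneg_right (by linarith) (by positivity))
  have hpos : 0 < |tc F θ d 1| := lt_of_lt_of_le (by norm_num) hT.one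
  have hA1 : 1 ≤ A' := by linarith
  have hK : 1 ≤ A' * H / |tc F θ d 1| := by
    rw [le_div_iff₀ hpos, one_mul]
    exact hb d 1 le_rfl
  refine ⟨hF, hT, hK, ?_, ?_, ?_⟩
  · unfold nt
    rw [hT.zero, zero_div]
  · unfold nt
    rw [abs_div, abs_abs]
    exact div_self hpos.ne'
  · intro k j hk _
    unfold nt
    rw [abs_div, abs_abs]
    have h1 : |tc F θ k j| / |tc F θ d 1| ≤ A' * H / |tc F θ d 1| :=
      div_le_div_of_nonneg_right (hb k j hk) hpos.le
    refine h1.trans ?_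
    exact le_mul_of_one_le_left (by linarith) hA1

end Pool.Agent.Q211.UG
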